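import Pool.Agent.Helper4.SP.FracHyp
import Pool.Agent.TH212.EH.A6

/-!
# Weighted level of distribution for the residues `n` with `{f(n)}` in a short interval

The residues are `c₀ + κ n`, where `n` runs through an ARBITRARY set of at least `len N / log ^ C N` integers in
`(N, 2 N]` for which the fractional part of `f(n) - c` is at most `len`; here `f` is an arbitrary smooth function with
derivatives of order `k + 1` of the size `F / N ^ (k + 1)`, where `N ^ δ ≤ F ≤ N ^ (k + 1 - δ)`, and `len` may be as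
small as `N ^ (- δ / (k 2 ^ (k + 2)))`. New is the essentially best possible bound for the additive energy of high order
of these thin sets, uniformly in `f` (`Pool.Agent.Helper4.SP.frac_energy`); the passage from the energy to the level of
distribution is `Pool.Agent.TH212.EH`.

From Mathlib: `ArithmeticFunction.vonMangoldt`: the function `Λ`; `Nat.totient`: Euler's function.
-/

set_option autoImplicit false

namespace Pool.Agent.Results.MP_188a10_nt.FractionalParts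

open Finset

/-- `E(x; d, a) = ψ(x; d, a) - x / φ(d)`, where `ψ(x; d, a)` is the sum of `Λ(n)` over the `n ≤ x` with
`n ≡ a (mod d)`. -/
noncomputable def E (x d : ℕ) (a : ℤ) : ℝ :=
  ∑ n ∈ (Icc 1 x).filter (fun n : ℕ => (n : ℤ) ≡ a [ZMOD d]), ArithmeticFunction.vonMangoldt n - (x : ℝ) / Nat.totient d

/-- `τ(d)`: the number of the divisors of `d`. In particular `τ(d) ^ 2 ≥ 3 ^ ν(d)`, where `ν(d)` is the number of
the prime factors of `d`. -/
noncomputable def τ (d : ℕ) : ℝ := d.divisors.card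

/-- `N / exp (K (log log N) ^ 2)` -/
noncomputable def level (K N : ℕ) : ℝ := N / Real.exp (K * Real.log (Real.log N) ^ 2)

/-- The functions `f = f 0`: here `f m` is the `m`-th derivative of `f 0` on `[N, 2 N + 1]` for `0 ≤ m ≤ k + 2`; the
number `N ^ (k + 1) |f ^ (k + 1) (t)|` is between `F / log ^ C N` and `F log ^ C N`, and the derivative of order `k + 2`
does not change its sign. -/
structure Phase (k C N : ℕ) (F : ℝ) (f : ℕ → ℝ → ℝ) : Prop where
  der : ∀ m ≤ k + 1, ∀ t ∈ Set.Icc (N : ℝ) (2 * N + 1), HasDerivAt (f m) (f (m + 1) t) t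
  low : ∀ t ∈ Set.Icc (N : ℝ) (2 * N + 1), F ≤ (N : ℝ) ^ (k + 1) * |f (k + 1) t| * Real.log N ^ C
  high : ∀ t ∈ Set.Icc (N : ℝ) (2 * N + 1), (N : ℝ) ^ (k + 1) * |f (k + 1) t| ≤ F * Real.log N ^ C
  mono : (∀ t ∈ Set.Icc (N : ℝ) (2 * N + 1), f (k + 2) t ≤ 0) ∨
    (∀ t ∈ Set.Icc (N : ℝ) (2 * N + 1), 0 ≤ f (k + 2) t)

/-- the residue `a(n) = c₀ + κ n` -/
def res (κ c₀ : ℤ) (n : ℕ) : ℤ := c₀ + κ * (n : ℤ)

/-- The sum of `λ(d) E(x(d); d, a)` over the `d ≤ Q` coprime to `a`. -/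
noncomputable def weighted (lam : ℕ → ℝ) (x : ℕ → ℕ) (Q : ℕ) (a : ℤ) : ℝ :=
  ∑ d ∈ (Icc 1 Q).filter (fun d : ℕ => Int.gcd a d = 1), lam d * E (x d) d a

/-- The sum of `w(n) E(x; d, a(n))` over the `n ∈ S` for which `a(n)` is positive and coprime to `d`. -/
noncomputable def total (S : Finset ℕ) (κ c₀ : ℤ) (w : ℕ → ℝ) (x d : ℕ) : ℝ :=
  ∑ n ∈ S.filter (fun n => 0 < res κ c₀ n ∧ Int.gcd (res κ c₀ n) d = 1), w n * E x d (res κ c₀ n)

lemma gcd_iff (a : ℤ) (ha : 0 < a) (q : ℕ) : Int.gcd a q = 1 ↔ a.toNat.Coprime q := by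
  obtain ⟨b, rfl⟩ := Int.eq_ofNat_of_zero_le ha.le
  rw [Int.gcd_natCast_natCast, Int.toNat_natCast, Nat.coprime_iff_gcd_eq_one]

lemma E_eq (x q : ℕ) (a : ℤ) (ha : 0 < a) : E x q a =
    Pool.Agent.W93.LV.Fu (fun n => ArithmeticFunction.vonMangoldt n) x q a.toNat - (x : ℝ) / Nat.totient q := by
  obtain ⟨b, rfl⟩ := Int.eq_ofNat_of_zero_le ha.le
  unfold E Pool.Agent.W93.LV.Fu
  rw [Int.toNat_natCast]
  congr 1
  apply sum_congr _ (fun _ _ => rfl)
  ext n
  simp only [mem_filter, Int.natCast_modEq_iff]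

lemma weighted_eq (lam : ℕ → ℝ) (x : ℕ → ℕ) (Q : ℕ) (a : ℤ) (ha : 0 < a) :
    weighted lam x Q a = Pool.Agent.TH212.EH.WW lam x Q a.toNat := by
  unfold weighted Pool.Agent.TH212.EH.WW
  simp only [gcd_iff a ha, E_eq _ _ a ha]

lemma card_le_sub (s : Finset ℕ) (P : ℕ → Prop) [DecidablePred P] (P' : {n // n ∈ s} → Prop) [DecidablePred P']
    (h : ∀ i : {n // n ∈ s}, P i.1 → P' i) (t : ℝ) (ht : ((univ.filter P').card : ℝ) ≤ t) : ((s.filter P).card : ℝ) ≤ t := by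
  classical
  refine le_trans ?_ ht
  apply Nat.cast_le.2
  have e : (s.filter P) ⊆ ((univ : Finset {n // n ∈ s}).filter P').image (fun i => i.1) := by
    intro n hn
    rw [mem_filter] at hn
    rw [mem_image]
    exact ⟨⟨n, hn.1⟩, mem_filter.2 ⟨mem_univ _, h ⟨n, hn.1⟩ hn.2⟩, rfl⟩
  exact (card_le_card e).trans card_image_le

open Classical in
/-- Let the integers `k ≥ 1`, `κ ≠ 0`, `B`, `C`, `T`, `U` and `0 < δ ≤ 1` be fixed. There is a `K` such that for all large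
`N` the following holds for ALL real `F` with `N ^ δ ≤ F ≤ N ^ (k + 1 - δ)`, ALL smooth functions `f` as above, ALL
intervals modulo 1, with the left endpoint `c` and the length `len ≥ N ^ (- δ / (k 2 ^ (k + 2)))`, ALL sets `S` of integers
`n` in `(N, 2 N]` with `{f(n) - c} ≤ len` and with at least `len N / log ^ C N` elements, and ALL integers `c₀` with
`|c₀| ≤ B N`. Let `a(n) = c₀ + κ n`.

(1) For arbitrary coefficients `λ(d)` with `|λ(d)| ≤ (τ(d) log N) ^ T` (e.g. `|λ(d)| ≤ 3 ^ ν(d)`, if `T = 2`) all but at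
most `#S / log ^ U N` of the `n ∈ S` with `a = a(n) > 0` satisfy: the sum of `λ(d) E(x; d, a)` over the `d ≤ Q` coprime
to `a` is at most `N / log ^ U N` in absolute value, for ALL `Q ≤ N / exp (K (log log N) ^ 2)` and ALL `x ≤ B N`.

(2) The same holds for the sums of `λ(d) E(x(d); d, a)`, if `x(d) ≤ B N` is an arbitrary function of the modulus.

(3) For arbitrary coefficients `|w(n)| ≤ log ^ T N` and arbitrary `x(d) ≤ B N`, the sum over ALL
`d ≤ N / exp (K (log log N) ^ 2)` of `τ(d) ^ T` times the ABSOLUTE VALUE of the sum of `w(n) E(x(d); d, a(n))`, over the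
`n ∈ S` for which `a(n)` is positive and coprime to `d`, is at most `#S N / log ^ U N`. -/
theorem result (k : ℕ) (hk : 1 ≤ k) (δ : ℝ) (hδ : 0 < δ) (hδ1 : δ ≤ 1) (κ : ℤ) (hκ : κ ≠ 0) (B C T U : ℕ) :
    ∃ K N₀ : ℕ, ∀ N : ℕ, N₀ ≤ N → ∀ F : ℝ, (N : ℝ) ^ δ ≤ F → F ≤ (N : ℝ) ^ ((k : ℝ) + 1 - δ) →
      ∀ f : ℕ → ℝ → ℝ, Phase k C N F f →
      ∀ c len : ℝ, (N : ℝ) ^ (-(δ / (k * 2 ^ (k + 2)))) ≤ len →
      ∀ S : Finset ℕ, S ⊆ Ioc N (2 * N) → (∀ n ∈ S, Int.fract (f 0 (n : ℝ) - c) ≤ len) →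
      len * N ≤ S.card * Real.log N ^ C → ∀ c₀ : ℤ, |c₀| ≤ B * (N : ℤ) →
      (∀ lam : ℕ → ℝ, (∀ d, |lam d| ≤ (τ d * Real.log N) ^ T) →
        ((S.filter (fun n => 0 < res κ c₀ n ∧ ∃ Q : ℕ, (Q : ℝ) ≤ level K N ∧ ∃ x : ℕ, x ≤ B * N ∧
          N / Real.log N ^ U < |weighted lam (fun _ => x) Q (res κ c₀ n)|)).card : ℝ) ≤ S.card / Real.log N ^ U ∧
        ∀ x : ℕ → ℕ, (∀ d, x d ≤ B * N) →
        ((S.filter (fun n => 0 < res κ c₀ n ∧ ∃ Q : ℕ, (Q : ℝ) ≤ level K N ∧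
          N / Real.log N ^ U < |weighted lam x Q (res κ c₀ n)|)).card : ℝ) ≤ S.card / Real.log N ^ U) ∧
      (∀ w : ℕ → ℝ, (∀ n, |w n| ≤ Real.log N ^ T) → ∀ x : ℕ → ℕ, (∀ d, x d ≤ B * N) →
        ∑ d ∈ Icc 1 ⌊level K N⌋₊, τ d ^ T * |total S κ c₀ w (x d) d| ≤ S.card * N / Real.log N ^ U) := by
  obtain ⟨p, B', C', k0, hB, hyp⟩ := Pool.Agent.Helper4.SP.fhyp k hk δ hδ hδ1 κ hκ B C
  obtain ⟨K1, n1, h1⟩ := Pool.Agent.TH212.EH.few p B' C' T U
  obtain ⟨K2, n2, h2⟩ := Pool.Agent.TH212.EH.dual p B' C' T U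
  refine ⟨max K1 K2, k0 + n1 + n2, fun N hN F hF1 hF2 f hf c len hlen S hS hSI hSc c₀ hc₀ => ?_⟩
  obtain ⟨hv, hE⟩ := hyp N (by omega) F hF1 hF2 f ⟨hf.der, hf.low, hf.high, hf.mono⟩ c len hlen S hS hSI hSc c₀ hc₀
  have hfc : Fintype.card {n // n ∈ S} = S.card := Fintype.card_coe _
  have hBN : B * N ≤ B' * N := Nat.mul_le_mul_right _ hB
  have hlev1 : level (max K1 K2) N ≤ Pool.Agent.TH212.EH.level K1 N :=
    Pool.Agent.TH212.EH.level_anti K1 _ N (le_max_left _ _)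
  have hlev2 : level (max K1 K2) N ≤ Pool.Agent.TH212.EH.level K2 N :=
    Pool.Agent.TH212.EH.level_anti K2 _ N (le_max_right _ _)
  have hlev0 : 0 ≤ level (max K1 K2) N := by unfold level; positivity
  constructor
  · intro lam hlam
    have hlam' : ∀ q, |lam q| ≤ Real.log N ^ T * (q.divisors.card : ℝ) ^ T := by
      intro q
      refine (hlam q).trans (le_of_eq ?_)
      rw [mul_pow, mul_comm]
      rfl
    obtain ⟨k1, k2⟩ := h1 N (by omega) {n // n ∈ S} (fun i => res κ c₀ i.1) hv hE lam hlam'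
    rw [hfc] at k1
    constructor
    · refine card_le_sub S _ _ ?_ _ k1
      rintro i ⟨hi1, Q, hQ, x, hx, hbig⟩
      refine ⟨hi1, Q, hQ.trans hlev1, x, hx.trans hBN, ?_⟩
      rw [weighted_eq lam (fun _ => x) Q _ hi1] at hbig
      exact hbig
    · intro x hx
      have k3 := k2 x (fun q => (hx q).trans hBN)
      rw [hfc] at k3
      refine card_le_sub S _ _ ?_ _ k3
      rintro i ⟨hi1, Q, hQ, hbig⟩
      refine ⟨hi1, Q, hQ.trans hlev1, ?_⟩
      rw [weighted_eq lam x Q _ hi1] at hbig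
      exact hbig
  · intro w hw x hx
    have k3 := h2 N (by omega) {n // n ∈ S} (fun i => res κ c₀ i.1) hv hE (fun i => w i.1) (fun i => hw i.1)
      ⌊level (max K1 K2) N⌋₊ ((Nat.floor_le hlev0).trans hlev2) x (fun q => (hx q).trans hBN)
    rw [hfc] at k3
    rw [mul_comm (S.card : ℝ)]
    refine le_trans (le_of_eq ?_) k3
    apply sum_congr rfl
    intro q _
    unfold τ total
    congr 2
    have e : S.filter (fun n => 0 < res κ c₀ n ∧ Int.gcd (res κ c₀ n) q = 1) =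
        ((univ : Finset {n // n ∈ S}).filter (fun i => 0 < res κ c₀ i.1 ∧ (res κ c₀ i.1).toNat.Coprime q)).image (fun i => i.1) := by
      ext n
      rw [mem_image, mem_filter]
      constructor
      · rintro ⟨h3, h4, h5⟩
        exact ⟨⟨n, h3⟩, mem_filter.2 ⟨mem_univ _, h4, (gcd_iff _ h4 q).1 h5⟩, rfl⟩
      · rintro ⟨i, h3, rfl⟩
        have h4 := (mem_filter.1 h3).2
        exact ⟨i.2, h4.1, (gcd_iff _ h4.1 q).2 h4.2⟩
    rw [e, sum_image (by
      intro i _ j _ h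
      exact Subtype.ext h)]
    apply sum_congr rfl
    intro i hi
    rw [mem_filter] at hi
    rw [E_eq _ _ _ hi.2.1]

end Pool.Agent.Results.MP_188a10_nt.FractionalParts
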