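import Pool.Agent.Helper82K9.TF.TF9
import Pool.Agent.TH212.EH.A6

/-!
# Weighted level of distribution, for residues which are values of polynomials with large leading coefficients

From Mathlib: `ArithmeticFunction.vonMangoldt`: the function `Λ`; `Nat.totient`: Euler's function.
-/

set_option autoImplicit false

namespace Pool.Agent.Results.MP_188a10_nt.PolynomialResidues

open Finset

/-- `E(x; d, a) = ψ(x; d, a) - x / φ(d)`, where `ψ(x; d, a)` is the sum of `Λ(n)` over the `n ≤ x` with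
`n ≡ a (mod d)`. -/
noncomputable def E (x d a : ℕ) : ℝ :=
  ∑ n ∈ (Icc 1 x).filter (fun n : ℕ => n ≡ a [MOD d]), ArithmeticFunction.vonMangoldt n - (x : ℝ) / Nat.totient d

/-- `τ(d)`: the number of the divisors of `d`. In particular `τ(d) ^ 2 ≥ 3 ^ ν(d)`, where `ν(d)` is the number of
the prime factors of `d`. -/
noncomputable def τ (d : ℕ) : ℝ := d.divisors.card

/-- `N / exp (K (log log N) ^ 2)` -/
noncomputable def level (K N : ℕ) : ℝ := N / Real.exp (K * Real.log (Real.log N) ^ 2)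

/-- The sum of `λ(d) E(x(d); d, a)` over the `d ≤ Q` coprime to `a`. -/
noncomputable def weighted (lam : ℕ → ℝ) (x : ℕ → ℕ) (Q : ℕ) (a : ℕ) : ℝ :=
  ∑ d ∈ (Icc 1 Q).filter (fun d : ℕ => a.Coprime d), lam d * E (x d) d a

/-- The sum of `λ(d) E(x; d, a)` over the `d ≤ Q` coprime to `a` is larger than `N / log ^ U N` in absolute value for some
`Q ≤ N / exp (K (log log N) ^ 2)` and some `x ≤ B N`. -/
def Bad (lam : ℕ → ℝ) (K B U N a : ℕ) : Prop :=
  ∃ Q : ℕ, (Q : ℝ) ≤ level K N ∧ ∃ x : ℕ, x ≤ B * N ∧ N / Real.log N ^ U < |weighted lam (fun _ => x) Q a|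

/-- The same with an upper bound `x = x(d)` which depends on `d`. -/
def BadX (lam : ℕ → ℝ) (x : ℕ → ℕ) (K U N a : ℕ) : Prop :=
  ∃ Q : ℕ, (Q : ℝ) ≤ level K N ∧ N / Real.log N ^ U < |weighted lam x Q a|

open Classical in
/-- The number of the integers `0 ≤ n < X` for which the value `a = f(n)` is positive and has the property `P`. -/
noncomputable def exceptions (P : ℕ → Prop) (X : ℕ) (f : Polynomial ℤ) : ℕ :=
  ((range X).filter (fun n : ℕ => 0 < f.eval (n : ℤ) ∧ P (f.eval (n : ℤ)).toNat)).card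

open Classical in
/-- The members `b` of `𝓑` for which there is a polynomial `f` with integer coefficients, of degree at most `k`, with the
coefficient `b` of `x ^ k`, with `|f(n)| ≤ B N` for all integers `0 ≤ n < X`, for which more than `X / log ^ U N` of the
values `f(n)`, `0 ≤ n < X`, are positive and have the property `P`. -/
noncomputable def badLeading (P : ℕ → Prop) (U B k X N : ℕ) (𝓑 : Finset ℕ) : Finset ℕ :=
  𝓑.filter (fun b : ℕ => ∃ f : Polynomial ℤ, f.natDegree ≤ k ∧ f.coeff k = (b : ℤ) ∧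
    (∀ n < X, |f.eval (n : ℤ)| ≤ B * (N : ℤ)) ∧ (X : ℝ) / Real.log N ^ U < exceptions P X f)

lemma weighted_eq (lam : ℕ → ℝ) (x : ℕ → ℕ) (Q : ℕ) (a : ℕ) :
    weighted lam x Q a = Pool.Agent.TH212.EH.WW lam x Q a := rfl

lemma weighted_eq' (lam : ℕ → ℝ) (x : ℕ) (Q : ℕ) (a : ℕ) :
    weighted lam (fun _ => x) Q a = Pool.Agent.TH212.EH.W lam Q x a := rfl

lemma mem_bad (P : ℕ → Prop) (U B k X N : ℕ) (𝓑 : Finset ℕ) (b : ℕ) : b ∈ badLeading P U B k X N 𝓑 ↔
    b ∈ 𝓑 ∧ ∃ f : Polynomial ℤ, f.natDegree ≤ k ∧ f.coeff k = (b : ℤ) ∧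
    (∀ n < X, |f.eval (n : ℤ)| ≤ B * (N : ℤ)) ∧ (X : ℝ) / Real.log N ^ U < exceptions P X f := by
  classical
  unfold badLeading
  rw [mem_filter]

/-- Let `k ≥ 2`, `D`, `C`, `B`, `T` and `U` be fixed. There is a `K` such that the following holds for all positive integers
`X` and `R ≤ X ^ k` for which `N = R X ^ k` is large, for all sets `𝓑` of integers in `[R, 2 R]` with at least
`N ^ (1 / D)` elements whose gcd sum is at most `log ^ C N` times its least possible order of magnitude `(#𝓑) ^ 2` (for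
instance if the members of `𝓑` are coprime in pairs), and for arbitrary coefficients `λ(d)` with
`|λ(d)| ≤ (τ(d) log N) ^ T` (e.g. `|λ(d)| ≤ 3 ^ ν(d)`, if `T = 2`):

(1) For all `b ∈ 𝓑`, with at most `#𝓑 / log ^ U N` exceptions, and for EVERY polynomial `f(x) = b x ^ k + …` with integer
coefficients and `|f(n)| ≤ B N` for `0 ≤ n < X`, the positive values `a = f(n)`, `0 ≤ n < X`, except for at most
`X / log ^ U N` of the `n`, satisfy: the sum of `λ(d) E(x; d, a)` over the `d ≤ Q` coprime to `a` is at most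
`N / log ^ U N` in absolute value, for ALL `Q ≤ N / exp (K (log log N) ^ 2)` and ALL `x ≤ B N`.

(2) The same holds for the sums of `λ(d) E(x(d); d, a)`, if `x(d) ≤ B N` is an arbitrary function of the modulus. -/
theorem result (k D C B T U : ℕ) (_hk : 2 ≤ k) : ∃ K N₀ : ℕ, ∀ X R N : ℕ, 1 ≤ X → 1 ≤ R → R ≤ X ^ k → N = R * X ^ k →
      N₀ ≤ N → ∀ 𝓑 : Finset ℕ, (∀ b ∈ 𝓑, R ≤ b ∧ b ≤ 2 * R) → N ≤ 𝓑.card ^ D →
      ∑ b ∈ 𝓑.offDiag, (Nat.gcd b.1 b.2 : ℝ) ≤ Real.log N ^ C * (𝓑.card : ℝ) ^ 2 →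
      ∀ lam : ℕ → ℝ, (∀ d, |lam d| ≤ (τ d * Real.log N) ^ T) →
      ((badLeading (Bad lam K B U N) U B k X N 𝓑).card : ℝ) ≤ 𝓑.card / Real.log N ^ U ∧
      ∀ x : ℕ → ℕ, (∀ d, x d ≤ B * N) →
        ((badLeading (BadX lam x K U N) U B k X N 𝓑).card : ℝ) ≤ 𝓑.card / Real.log N ^ U := by
  classical
  obtain ⟨h, C', n2, hh, h2⟩ := Pool.Agent.Helper82K9.TF.all_polys k D C U (B + 2) (by omega) (by omega)
  obtain ⟨K, n1, h1⟩ := Pool.Agent.TH212.EH.few h (B + 2) C' T (2 * U + 1)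
  obtain ⟨n3, h3⟩ := Pool.Agent.Helper82K9.TF.ev_pow_log 1 1 le_rfl
  refine ⟨K, n1 + n2 + n3 + 1, fun X R N hX hR hRX hNe hN 𝓑 h𝓑 hcard hgcd lam hlam => ?_⟩
  obtain ⟨-, hL1⟩ := h3 N (by omega)
  have hlam' : ∀ q, |lam q| ≤ Real.log N ^ T * (q.divisors.card : ℝ) ^ T := by
    intro q
    refine (hlam q).trans (le_of_eq ?_)
    rw [mul_pow, mul_comm]
    rfl
  have hN0 : (0 : ℝ) < N := by exact_mod_cast (by omega : 0 < N)
  have hBN : B * N ≤ (B + 2) * N := Nat.mul_le_mul_right _ (by omega)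
  have hU : (N : ℝ) / Real.log N ^ (2 * U + 1) ≤ N / Real.log N ^ U :=
    div_le_div_of_nonneg_left hN0.le (by positivity) (pow_le_pow_right₀ hL1 (by omega))
  have hconv : ∀ P : ℕ → Prop, ((𝓑.filter (fun b : ℕ => ∃ f : Polynomial ℤ, f.natDegree ≤ k ∧ f.coeff k = (b : ℤ) ∧
        (∀ a < X, |f.eval (a : ℤ)| ≤ ((B + 2 : ℕ) : ℤ) * (N : ℤ)) ∧
        (X : ℝ) / Real.log N ^ U < ((range X).filter (fun a : ℕ => 0 < f.eval (a : ℤ) ∧
          P (f.eval (a : ℤ)).toNat)).card)).card : ℝ) ≤ 𝓑.card / Real.log N ^ U →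
      ((badLeading P U B k X N 𝓑).card : ℝ) ≤ 𝓑.card / Real.log N ^ U := by
    intro P hP
    refine le_trans ?_ hP
    rw [Nat.cast_le]
    apply card_le_card
    intro b hb
    rw [mem_bad] at hb
    rw [mem_filter]
    obtain ⟨hb1, f, g1, g2, g3, g4⟩ := hb
    refine ⟨hb1, f, g1, g2, fun a ha => (g3 a ha).trans ?_, g4⟩
    push_cast
    have : (0 : ℤ) ≤ N := Int.natCast_nonneg _
    nlinarith
  constructor
  · apply hconv
    refine h2 X R N hX hR hRX hNe (by omega) (Bad lam K B U N) ?_ 𝓑 h𝓑 hcard hgcd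
    intro ι _ v hv hE
    have h4 := (h1 N (by omega) ι v hv hE lam hlam').1
    refine le_trans ?_ h4
    rw [Nat.cast_le]
    apply card_le_card
    intro i hi
    rw [mem_filter] at hi ⊢
    obtain ⟨hi1, hi2, Q, hQ, x, hx, hb⟩ := hi
    refine ⟨hi1, hi2, Q, hQ, x, hx.trans hBN, ?_⟩
    rw [weighted_eq'] at hb
    exact lt_of_le_of_lt hU hb
  · intro x hx
    apply hconv
    refine h2 X R N hX hR hRX hNe (by omega) (BadX lam x K U N) ?_ 𝓑 h𝓑 hcard hgcd
    intro ι _ v hv hE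
    have h4 := (h1 N (by omega) ι v hv hE lam hlam').2 x (fun q => (hx q).trans hBN)
    refine le_trans ?_ h4
    rw [Nat.cast_le]
    apply card_le_card
    intro i hi
    rw [mem_filter] at hi ⊢
    obtain ⟨hi1, hi2, Q, hQ, hb⟩ := hi
    refine ⟨hi1, hi2, Q, hQ, ?_⟩
    rw [weighted_eq] at hb
    exact lt_of_le_of_lt hU hb

end Pool.Agent.Results.MP_188a10_nt.PolynomialResidues
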