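import Pool.Agent.Helper82K9.TF.TF7
import Pool.Agent.TH212.EH.A6

/-!
# Weighted level of distribution, for almost all residues in every class to almost every difference

From Mathlib: `ArithmeticFunction.vonMangoldt`: the function `Λ`; `Nat.totient`: Euler's function.
-/

set_option autoImplicit false

namespace Pool.Agent.Results.MP_188a10_nt.ResiduesInEveryClass

open Finset

/-- `E(x; d, a) = ψ(x; d, a) - x / φ(d)`, where `ψ(x; d, a)` is the sum of `Λ(n)` over the `n ≤ x` with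
`n ≡ a (mod d)`. -/
noncomputable def E (x d a : ℕ) : ℝ :=
  ∑ n ∈ (Icc 1 x).filter (fun n : ℕ => n ≡ a [MOD d]), ArithmeticFunction.vonMangoldt n - (x : ℝ) / Nat.totient d

/-- `τ(d)`: the number of the divisors of `d`. In particular `τ(d) ^ 2 ≥ 3 ^ ν(d)`, where `ν(d)` is the number of
the prime factors of `d`. -/
noncomputable def τ (d : ℕ) : ℝ := d.divisors.card

/-- `N / exp (K (log log N) ^ 2)` -/
noncomputable def level (K N : ℕ) : ℝ := N / Real.exp (K * Real.log (Real.log N) ^ 2)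

/-- The sum of `λ(d) E(x(d); d, a)` over the `d ≤ Q` coprime to `a`. -/
noncomputable def weighted (lam : ℕ → ℝ) (x : ℕ → ℕ) (Q : ℕ) (a : ℕ) : ℝ :=
  ∑ d ∈ (Icc 1 Q).filter (fun d : ℕ => a.Coprime d), lam d * E (x d) d a

/-- The sum of `λ(d) E(x; d, a)` over the `d ≤ Q` coprime to `a` is larger than `N / log ^ U N` in absolute value for some
`Q ≤ N / exp (K (log log N) ^ 2)` and some `x ≤ B N`. -/
def Bad (lam : ℕ → ℝ) (K B U N a : ℕ) : Prop :=
  ∃ Q : ℕ, (Q : ℝ) ≤ level K N ∧ ∃ x : ℕ, x ≤ B * N ∧ N / Real.log N ^ U < |weighted lam (fun _ => x) Q a|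

/-- The same with an upper bound `x = x(d)` which depends on `d`. -/
def BadX (lam : ℕ → ℝ) (x : ℕ → ℕ) (K U N a : ℕ) : Prop :=
  ∃ Q : ℕ, (Q : ℝ) ≤ level K N ∧ N / Real.log N ^ U < |weighted lam x Q a|

open Classical in
/-- The number of the `a ≤ N` with `a ≡ c mod b` and with the property `P`. -/
noncomputable def inClass (P : ℕ → Prop) (N b : ℕ) (c : ℤ) : ℕ :=
  ((Icc 1 N).filter (fun a : ℕ => (a : ℤ) ≡ c [ZMOD b] ∧ P a)).card

open Classical in
/-- The members `b` of `𝓑` for which there is a residue class `c` modulo `b` with more than `(N / b) / log ^ U N`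
positive integers `a ≤ N`, `a ≡ c mod b`, which have the property `P`. -/
noncomputable def badDifferences (P : ℕ → Prop) (U N : ℕ) (𝓑 : Finset ℕ) : Finset ℕ :=
  𝓑.filter (fun b => ∃ c : ℤ, (N : ℝ) / (b * Real.log N ^ U) < inClass P N b c)

lemma E_eq (x q a : ℕ) : E x q a =
    Pool.Agent.W93.LV.Fu (fun n => ArithmeticFunction.vonMangoldt n) x q a - (x : ℝ) / Nat.totient q := rfl

lemma weighted_eq (lam : ℕ → ℝ) (x : ℕ → ℕ) (Q : ℕ) (a : ℕ) :
    weighted lam x Q a = Pool.Agent.TH212.EH.WW lam x Q a := rfl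

lemma weighted_eq' (lam : ℕ → ℝ) (x : ℕ) (Q : ℕ) (a : ℕ) :
    weighted lam (fun _ => x) Q a = Pool.Agent.TH212.EH.W lam Q x a := rfl

lemma inClass_eq (P : ℕ → Prop) (N b : ℕ) (c : ℤ) : inClass P N b c = Pool.Agent.Helper82K9.TF.inClass P N b c := rfl

lemma mem_bad (P : ℕ → Prop) (U N : ℕ) (𝓑 : Finset ℕ) (b : ℕ) : b ∈ badDifferences P U N 𝓑 ↔
    b ∈ 𝓑 ∧ ∃ c : ℤ, (N : ℝ) / (b * Real.log N ^ U) < inClass P N b c := by
  classical
  unfold badDifferences
  rw [mem_filter]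

/-- Let `D`, `C`, `B`, `T` and `U` be fixed. There is a `K` such that the following holds for all large `N`, for all
`R ≤ √N`, for all sets `𝓑` of integers in `[R, 2 R]` with at least `N ^ (1 / D)` elements whose gcd sum is at most
`log ^ C N` times its least possible order of magnitude `(#𝓑) ^ 2` (for instance if the members of `𝓑` are coprime in
pairs), and for arbitrary coefficients `λ(d)` with `|λ(d)| ≤ (τ(d) log N) ^ T` (e.g. `|λ(d)| ≤ 3 ^ ν(d)`, if `T = 2`):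

(1) For all `b ∈ 𝓑`, with at most `#𝓑 / log ^ U N` exceptions, in EVERY residue class `c` modulo `b` all the positive
integers `a ≤ N`, `a ≡ c mod b`, except for at most `(N / b) / log ^ U N` of them, satisfy: the sum of `λ(d) E(x; d, a)` over
the `d ≤ Q` coprime to `a` is at most `N / log ^ U N` in absolute value, for ALL `Q ≤ N / exp (K (log log N) ^ 2)` and ALL
`x ≤ B N`.

(2) The same holds for the sums of `λ(d) E(x(d); d, a)`, if `x(d) ≤ B N` is an arbitrary function of the modulus. -/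
theorem result (D C B T U : ℕ) : ∃ K N₀ : ℕ, ∀ N : ℕ, N₀ ≤ N → ∀ R : ℕ, 1 ≤ R → R ^ 2 ≤ N → ∀ 𝓑 : Finset ℕ,
      (∀ b ∈ 𝓑, R ≤ b ∧ b ≤ 2 * R) → N ≤ 𝓑.card ^ D →
      ∑ b ∈ 𝓑.offDiag, (Nat.gcd b.1 b.2 : ℝ) ≤ Real.log N ^ C * (𝓑.card : ℝ) ^ 2 →
      ∀ lam : ℕ → ℝ, (∀ d, |lam d| ≤ (τ d * Real.log N) ^ T) →
      ((badDifferences (Bad lam K B U N) U N 𝓑).card : ℝ) ≤ 𝓑.card / Real.log N ^ U ∧
      ∀ x : ℕ → ℕ, (∀ d, x d ≤ B * N) →
        ((badDifferences (BadX lam x K U N) U N 𝓑).card : ℝ) ≤ 𝓑.card / Real.log N ^ U := by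
  classical
  obtain ⟨K, n1, h1⟩ := Pool.Agent.TH212.EH.few ((D + 3) + 4) (8 + B) (2 * C + 1) T (2 * U + 1)
  obtain ⟨n2, h2⟩ := Pool.Agent.Helper82K9.TF.all_classes2 D C U
  obtain ⟨n3, h3⟩ := Pool.Agent.Helper82K9.TF.ev_pow_log 1 1 le_rfl
  refine ⟨K, n1 + n2 + n3 + 1, fun N hN R hR hRN 𝓑 h𝓑 hcard hgcd lam hlam => ?_⟩
  obtain ⟨-, hL1⟩ := h3 N (by omega)
  have hlam' : ∀ q, |lam q| ≤ Real.log N ^ T * (q.divisors.card : ℝ) ^ T := by
    intro q
    refine (hlam q).trans (le_of_eq ?_)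
    rw [mul_pow, mul_comm]
    rfl
  have hN0 : (0 : ℝ) < N := by exact_mod_cast (by omega : 0 < N)
  have hBN : B * N ≤ (8 + B) * N := Nat.mul_le_mul_right _ (by omega)
  have hU : (N : ℝ) / Real.log N ^ (2 * U + 1) ≤ N / Real.log N ^ U :=
    div_le_div_of_nonneg_left hN0.le (by positivity) (pow_le_pow_right₀ hL1 (by omega))
  have h8 : ∀ (ι : Type) [Fintype ι] (v : ι → ℤ), (∀ i, |v i| ≤ 8 * (N : ℤ)) → ∀ i, |v i| ≤ ((8 + B : ℕ) : ℤ) * N := by
    intro ι _ v hv i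
    refine (hv i).trans ?_
    push_cast
    nlinarith [Int.natCast_nonneg B, Int.natCast_nonneg N, mul_nonneg (Int.natCast_nonneg B) (Int.natCast_nonneg N)]
  have hconv : ∀ P : ℕ → Prop, ((𝓑.filter (fun b => ∃ c : ℤ, (N : ℝ) / (b * Real.log N ^ U) <
      Pool.Agent.Helper82K9.TF.inClass P N b c)).card : ℝ) ≤ 𝓑.card / Real.log N ^ U →
      ((badDifferences P U N 𝓑).card : ℝ) ≤ 𝓑.card / Real.log N ^ U := by
    intro P hP
    refine le_trans ?_ hP
    rw [Nat.cast_le]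
    apply card_le_card
    intro b hb
    rw [mem_bad] at hb
    rw [mem_filter]
    exact hb
  constructor
  · apply hconv
    refine h2 N (by omega) (Bad lam K B U N) ?_ R hR hRN 𝓑 h𝓑 hcard hgcd
    intro ι _ v hv hE
    have h4 := (h1 N (by omega) ι v (h8 ι v hv) hE lam hlam').1
    refine le_trans ?_ h4
    rw [Nat.cast_le]
    apply card_le_card
    intro i hi
    rw [mem_filter] at hi ⊢
    obtain ⟨hi1, hi2, Q, hQ, x, hx, hb⟩ := hi
    refine ⟨hi1, hi2, Q, hQ, x, hx.trans hBN, ?_⟩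
    rw [weighted_eq'] at hb
    exact lt_of_le_of_lt hU hb
  · intro x hx
    apply hconv
    refine h2 N (by omega) (BadX lam x K U N) ?_ R hR hRN 𝓑 h𝓑 hcard hgcd
    intro ι _ v hv hE
    have h4 := (h1 N (by omega) ι v (h8 ι v hv) hE lam hlam').2 x (fun q => (hx q).trans hBN)
    refine le_trans ?_ h4
    rw [Nat.cast_le]
    apply card_le_card
    intro i hi
    rw [mem_filter] at hi ⊢
    obtain ⟨hi1, hi2, Q, hQ, hb⟩ := hi
    refine ⟨hi1, hi2, Q, hQ, ?_⟩
    rw [weighted_eq] at hb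
    exact lt_of_le_of_lt hU hb

end Pool.Agent.Results.MP_188a10_nt.ResiduesInEveryClass
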